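import Pool.Agent.Y854.GM.Dens
import Pool.Agent.H828R3.GP.Three

/-! The least terms of the trajectories of the map `x / 2`, `(3 x + 1) / 2`, on average. -/

set_option autoImplicit false

open Finset Filter Topology

namespace Pool.Agent.Y854.CO

open Pool.Agent.H499R2.ND

open Classical in
/-- the indicator function of the integers `t` with `s t ∈ S` -/
noncomputable def ind (s : ℤ) (S : Set ℤ) (t : ℕ) : ℝ := if s * (t : ℤ) ∈ S then 1 else 0

lemma ind_nonneg (s : ℤ) (S : Set ℤ) (t : ℕ) : 0 ≤ ind s S t := by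
  unfold ind; split_ifs <;> norm_num

lemma ind_le (s : ℤ) (S : Set ℤ) (t : ℕ) : ind s S t ≤ 1 := by
  unfold ind; split_ifs <;> norm_num

/-- the counts of the elements of `S` of sign `s` -/
lemma ncard_eq {s : ℤ} (hs : s = 1 ∨ s = -1) (S : Set ℤ) (N : ℕ) :
    ({n : ℤ | 0 < s * n ∧ s * n ≤ N ∧ n ∈ S}.ncard : ℝ) = ∑ t ∈ Ioc 0 N, ind s S t := by
  classical
  have h1 : {n : ℤ | 0 < s * n ∧ s * n ≤ N ∧ n ∈ S} =
      (((Ioc 0 N).filter (fun t : ℕ => s * (t : ℤ) ∈ S)).image (fun t : ℕ => s * (t : ℤ)) : Finset ℤ) := by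
    ext x
    simp only [Set.mem_ofPred_eq, coe_image, coe_filter, mem_Ioc, Set.mem_image]
    constructor
    · rintro ⟨h1, h2, h3⟩
      refine ⟨(s * x).toNat, ?_, ?_⟩
      · have h4 : ((s * x).toNat : ℤ) = s * x := Int.toNat_of_nonneg h1.le
        refine ⟨⟨by omega, by omega⟩, ?_⟩
        rw [h4]
        have h5 : s * (s * x) = x := by rcases hs with rfl | rfl <;> ring
        rwa [h5]
      · have h4 : ((s * x).toNat : ℤ) = s * x := Int.toNat_of_nonneg h1.le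
        rw [h4]
        rcases hs with rfl | rfl <;> ring
    · rintro ⟨t, ⟨⟨h1, h2⟩, h3⟩, rfl⟩
      have h5 : s * (s * (t : ℤ)) = t := by rcases hs with rfl | rfl <;> ring
      rw [h5]
      exact ⟨by exact_mod_cast h1, by exact_mod_cast h2, h3⟩
  rw [h1, Set.ncard_coe_finset, Finset.card_image_of_injective]
  · unfold ind
    rw [Finset.sum_boole]
  · intro a b hab
    simp only at hab
    rcases hs with rfl | rfl <;> omega

/-- the integers whose trajectory stays above `y` -/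
lemma stay_sum {s : ℤ} (hs : s = 1 ∨ s = -1) : ∃ K : ℝ, 0 < K ∧ ∀ y : ℝ, 1 ≤ y → ∀ X : ℕ,
    ∑ t ∈ Ioc 0 X, ind s (Stay 1 y) t ≤ K * (X + 1) / y ^ (0.04 : ℝ) := by
  classical
  obtain ⟨K, hK, h⟩ := Pool.Agent.H828R3.GP.three_side (k := 1) odd_one (c := 0.04) (by norm_num)
    (by have := Pool.Agent.H319R2.beta_lt; linarith) hs
  refine ⟨K, hK, fun y hy X => ?_⟩
  refine le_trans ?_ (h y hy (X + 1) (by positivity))
  unfold G ind
  rw [Finset.sum_boole]
  have h1 : ((Ioc 0 X).filter (fun t : ℕ => s * (t : ℤ) ∈ Stay 1 y)).card ≤ (pos {x | s * x ∈ Stay 1 y} (X + 1)).card := by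
    apply Finset.card_le_card_of_injOn (fun t : ℕ => (t : ℤ))
    · intro t ht
      rw [mem_coe, mem_filter, mem_Ioc] at ht
      rw [mem_coe, mem_pos]
      have h0 : (1 : ℤ) ≤ (t : ℤ) := by exact_mod_cast ht.1.1
      refine ⟨⟨h0, ?_⟩, ht.2⟩
      have : (t : ℝ) ≤ X := by exact_mod_cast ht.1.2
      push_cast
      linarith
    · intro a _ b _ hab
      simp only at hab
      exact_mod_cast hab
  exact_mod_cast h1

/-- the least absolute value of the terms of the trajectory -/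
noncomputable def least (x : ℤ) : ℕ := sInf {m : ℕ | ∃ k : ℕ, ((Td 1)^[k] x).natAbs = m}

lemma least_le (x : ℤ) (k : ℕ) : least x ≤ ((Td 1)^[k] x).natAbs := Nat.sInf_le ⟨k, rfl⟩

lemma least_mem (x : ℤ) : ∃ k : ℕ, ((Td 1)^[k] x).natAbs = least x :=
  Nat.sInf_mem (s := {m : ℕ | ∃ k : ℕ, ((Td 1)^[k] x).natAbs = m}) ⟨_, 0, rfl⟩

lemma least_le_self {s : ℤ} (hs : s = 1 ∨ s = -1) (t : ℕ) : least (s * t) ≤ t := by
  have h := least_le (s * t) 0
  have h2 : ((Td 1)^[0] (s * (t : ℤ))).natAbs = t := by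
    rw [Function.iterate_zero, id]
    rcases hs with rfl | rfl <;> simp
  omega

lemma stay_iff (x : ℤ) (y : ℝ) : x ∈ Stay 1 y ↔ y < least x := by
  constructor
  · intro h
    obtain ⟨k, hk⟩ := least_mem x
    have h1 := h k
    rw [← hk, Nat.cast_natAbs, Int.cast_abs]
    exact h1
  · intro h k
    have h1 : (least x : ℝ) ≤ (((Td 1)^[k] x).natAbs : ℝ) := by exact_mod_cast least_le x k
    rw [Nat.cast_natAbs, Int.cast_abs] at h1
    linarith

/-- moments from the distribution -/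
lemma moment (f : ℕ → ℕ) (hf : ∀ t, f t ≤ t) {K : ℝ} (hK : 0 < K) (h : ∀ j : ℕ, 1 ≤ j → ∀ X : ℕ,
      (((Ioc 0 X).filter (fun t => 2 ^ j ≤ f t)).card : ℝ) ≤ K * (X + 1) / ((2 : ℝ) ^ (j - 1 : ℕ)) ^ (0.04 : ℝ))
    {θ : ℝ} (hθ : 0 < θ) (hθ1 : θ ≤ 0.02) :
    ∃ K' : ℝ, 0 < K' ∧ ∀ X : ℕ, ∑ t ∈ Ioc 0 X, (f t : ℝ) ^ θ ≤ K' * (X + 1) := by
  classical
  set q : ℝ := (2 : ℝ) ^ (-(0.02 : ℝ)) with hq
  have hq0 : 0 < q := Real.rpow_pos_of_pos (by norm_num) _
  have hq1 : q < 1 := Real.rpow_lt_one_of_one_lt_of_neg (by norm_num) (by norm_num)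
  refine ⟨2 + 4 * K * (1 - q)⁻¹, by have : 0 < (1 - q)⁻¹ := inv_pos.mpr (by linarith)
                                    positivity, fun X => ?_⟩
  have hmaps : ∀ t ∈ Ioc 0 X, Nat.log 2 (f t) ∈ range (Nat.log 2 X + 1) := by
    intro t ht
    rw [mem_Ioc] at ht
    rw [mem_range]
    have := Nat.log_mono_right (b := 2) ((hf t).trans ht.2)
    omega
  rw [← Finset.sum_fiberwise_of_maps_to hmaps]
  have hfib : ∀ j ∈ range (Nat.log 2 X + 1), ∑ t ∈ (Ioc 0 X).filter (fun t => Nat.log 2 (f t) = j), (f t : ℝ) ^ θ ≤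
      (if j = 0 then 2 * ((X : ℝ) + 1) else 0) + 4 * K * (X + 1) * q ^ j := by
    intro j _
    have hup : ∀ t ∈ (Ioc 0 X).filter (fun t => Nat.log 2 (f t) = j), (f t : ℝ) ^ θ ≤ 2 * ((2 : ℝ) ^ j) ^ θ := by
      intro t ht
      rw [mem_filter] at ht
      have h1 : f t < 2 ^ (j + 1) := by
        rw [← ht.2]
        exact Nat.lt_pow_succ_log_self (by norm_num) _
      have h2 : (f t : ℝ) ≤ 2 * 2 ^ j := by
        have : (f t : ℝ) < (2 : ℝ) ^ (j + 1) := by exact_mod_cast h1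
        rw [pow_succ] at this
        linarith
      calc (f t : ℝ) ^ θ ≤ (2 * 2 ^ j) ^ θ := Real.rpow_le_rpow (Nat.cast_nonneg _) h2 hθ.le
        _ = 2 ^ θ * ((2 : ℝ) ^ j) ^ θ := Real.mul_rpow (by norm_num) (by positivity)
        _ ≤ 2 * ((2 : ℝ) ^ j) ^ θ := by
            apply mul_le_mul_of_nonneg_right _ (by positivity)
            calc (2 : ℝ) ^ θ ≤ (2 : ℝ) ^ (1 : ℝ) := Real.rpow_le_rpow_of_exponent_le (by norm_num) (by linarith)
              _ = 2 := Real.rpow_one 2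
    refine (Finset.sum_le_sum hup).trans ?_
    rw [sum_const, nsmul_eq_mul]
    rcases Nat.eq_zero_or_pos j with rfl | hj
    · rw [if_pos rfl]
      have h1 : (((Ioc 0 X).filter (fun t => Nat.log 2 (f t) = 0)).card : ℝ) ≤ X := by
        have h2 := Finset.card_filter_le (Ioc 0 X) (fun t => Nat.log 2 (f t) = 0)
        rw [Nat.card_Ioc] at h2
        have : ((Ioc 0 X).filter (fun t => Nat.log 2 (f t) = 0)).card ≤ X := by omega
        exact_mod_cast this
      simp only [pow_zero, Real.one_rpow, mul_one]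
      have h3 : 0 ≤ 4 * K * ((X : ℝ) + 1) := by positivity
      linarith
    · rw [if_neg (by omega), zero_add]
      have h1 : (((Ioc 0 X).filter (fun t => Nat.log 2 (f t) = j)).card : ℝ) ≤
          K * (X + 1) / ((2 : ℝ) ^ (j - 1 : ℕ)) ^ (0.04 : ℝ) := by
        refine le_trans ?_ (h j hj X)
        have : ((Ioc 0 X).filter (fun t => Nat.log 2 (f t) = j)).card ≤
            ((Ioc 0 X).filter (fun t => 2 ^ j ≤ f t)).card := by
          apply Finset.card_le_card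
          intro t ht
          rw [mem_filter] at ht ⊢
          refine ⟨ht.1, ?_⟩
          rw [← ht.2]
          apply Nat.pow_log_le_self
          intro h0
          have : Nat.log 2 (f t) = 0 := by rw [h0]; simp
          omega
        exact_mod_cast this
      have h2 : K * (X + 1) / ((2 : ℝ) ^ (j - 1 : ℕ)) ^ (0.04 : ℝ) ≤ 2 * K * (X + 1) / ((2 : ℝ) ^ j) ^ (0.04 : ℝ) := by
        rw [div_le_div_iff₀ (by positivity) (by positivity)]
        have h3 : ((2 : ℝ) ^ j) ^ (0.04 : ℝ) ≤ 2 * ((2 : ℝ) ^ (j - 1 : ℕ)) ^ (0.04 : ℝ) := by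
          obtain ⟨i, rfl⟩ : ∃ i, j = i + 1 := ⟨j - 1, by omega⟩
          rw [Nat.add_sub_cancel, pow_succ, mul_comm ((2 : ℝ) ^ i) 2, Real.mul_rpow (by norm_num) (by positivity)]
          apply mul_le_mul_of_nonneg_right _ (by positivity)
          calc (2 : ℝ) ^ (0.04 : ℝ) ≤ (2 : ℝ) ^ (1 : ℝ) := Real.rpow_le_rpow_of_exponent_le (by norm_num) (by norm_num)
            _ = 2 := Real.rpow_one 2
        have h4 : 0 ≤ K * ((X : ℝ) + 1) := by positivity
        nlinarith [mul_le_mul_of_nonneg_left h3 h4]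
      have h5 : ((2 : ℝ) ^ j) ^ θ / ((2 : ℝ) ^ j) ^ (0.04 : ℝ) ≤ q ^ j := by
        rw [← Real.rpow_sub (by positivity), hq, ← Real.rpow_natCast, ← Real.rpow_natCast,
          ← Real.rpow_mul (by norm_num), ← Real.rpow_mul (by norm_num)]
        apply Real.rpow_le_rpow_of_exponent_le (by norm_num)
        have hj0 : (0 : ℝ) ≤ j := Nat.cast_nonneg _
        nlinarith
      calc (((Ioc 0 X).filter (fun t => Nat.log 2 (f t) = j)).card : ℝ) * (2 * ((2 : ℝ) ^ j) ^ θ)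
          ≤ (2 * K * (X + 1) / ((2 : ℝ) ^ j) ^ (0.04 : ℝ)) * (2 * ((2 : ℝ) ^ j) ^ θ) :=
            mul_le_mul_of_nonneg_right (h1.trans h2) (by positivity)
        _ = 4 * K * (X + 1) * (((2 : ℝ) ^ j) ^ θ / ((2 : ℝ) ^ j) ^ (0.04 : ℝ)) := by ring
        _ ≤ 4 * K * (X + 1) * q ^ j := mul_le_mul_of_nonneg_left h5 (by positivity)
  refine (Finset.sum_le_sum hfib).trans ?_
  rw [Finset.sum_add_distrib, Finset.sum_ite_eq' (range (Nat.log 2 X + 1)) 0 (fun _ => 2 * ((X : ℝ) + 1)),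
    if_pos (by rw [mem_range]; omega), ← Finset.mul_sum]
  have h1 : ∑ j ∈ range (Nat.log 2 X + 1), q ^ j ≤ (1 - q)⁻¹ := by
    rw [geom_sum_eq (by linarith)]
    have h2 : (q ^ (Nat.log 2 X + 1) - 1) / (q - 1) = (1 - q ^ (Nat.log 2 X + 1)) / (1 - q) := by
      rw [← neg_sub 1 q, ← neg_sub 1 (q ^ (Nat.log 2 X + 1)), neg_div_neg_eq]
    rw [h2, div_eq_mul_inv]
    have h3 : 0 ≤ (1 - q)⁻¹ := inv_nonneg.mpr (by linarith)
    have h4 : 0 ≤ q ^ (Nat.log 2 X + 1) := by positivity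
    nlinarith
  have h2 : 0 ≤ 4 * K * ((X : ℝ) + 1) := by positivity
  nlinarith [mul_le_mul_of_nonneg_left h1 h2]

/-- **The moments of the least terms.** -/
lemma least_moment {s : ℤ} (hs : s = 1 ∨ s = -1) {θ : ℝ} (hθ : 0 < θ) (hθ1 : θ ≤ 0.02) :
    ∃ K' : ℝ, 0 < K' ∧ ∀ X : ℕ, ∑ t ∈ Ioc 0 X, (least (s * t) : ℝ) ^ θ ≤ K' * (X + 1) := by
  classical
  obtain ⟨K, hK, h⟩ := stay_sum hs
  refine moment (fun t => least (s * t)) (least_le_self hs) hK (fun j hj X => ?_) hθ hθ1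
  refine le_trans ?_ (h ((2 : ℝ) ^ (j - 1 : ℕ)) (one_le_pow₀ (by norm_num)) X)
  unfold ind
  rw [Finset.sum_boole]
  have : ((Ioc 0 X).filter (fun t : ℕ => 2 ^ j ≤ least (s * t))).card ≤
      ((Ioc 0 X).filter (fun t : ℕ => s * (t : ℤ) ∈ Stay 1 ((2 : ℝ) ^ (j - 1 : ℕ)))).card := by
    apply Finset.card_le_card
    intro t ht
    rw [mem_filter] at ht ⊢
    refine ⟨ht.1, ?_⟩
    rw [stay_iff]
    have h1 : (2 : ℝ) ^ j ≤ least (s * t) := by exact_mod_cast ht.2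
    have h2 : (2 : ℝ) ^ (j - 1 : ℕ) < (2 : ℝ) ^ j := pow_lt_pow_right₀ (by norm_num) (by omega)
    linarith
  exact_mod_cast this

end Pool.Agent.Y854.CO
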