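import Pool.Agent.Y854.CO.Least

/-! The invariant sets of the map `x / 2`, `(3 x + 1) / 2` along sparse sequences. -/

set_option autoImplicit false

open Finset Filter Topology

namespace Pool.Agent.Y854.CO

open Pool.Agent.H499R2.ND
open Pool.Agent.Y854.PS (wt)

/-- the natural density of `S` among the integers of sign `s` -/
def DS (s : ℤ) (S : Set ℤ) (δ : ℝ) : Prop := Tendsto (fun X : ℕ => (∑ t ∈ Ioc 0 X, ind s S t) / X) atTop (𝓝 δ)

lemma DS_exists {s : ℤ} (hs : s = 1 ∨ s = -1) {S : Set ℤ} (hS : Inv 1 S) : ∃ δ : ℝ, DS s S δ := by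
  obtain ⟨l, _, _, hl⟩ := dens_side odd_one isCoprime_one_left hs hS
  refine ⟨l, (HD_ncard hs hl).congr fun N => ?_⟩
  rw [ncard_eq hs]

lemma DS_pos {s : ℤ} (hs : s = 1 ∨ s = -1) {S : Set ℤ} (hS : Inv 1 S) {δ : ℝ} (h : DS s S δ) {a : ℤ} (ha : a ∈ S)
    (hsa : 0 < s * a) : 0 < δ := by
  obtain ⟨l, _, _, hl⟩ := dens_side odd_one isCoprime_one_left hs hS
  have h1 : DS s S l := (HD_ncard hs hl).congr fun N => by rw [ncard_eq hs]
  have h2 : δ = l := tendsto_nhds_unique h h1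
  rw [h2]
  exact one_pos hs hS ha hsa hl

/-- a trajectory which does not stay above `y` decides the membership -/
lemma agree {S R : Set ℤ} (hS : Inv 1 S) (hR : Inv 1 R) (y : ℕ) (h : ∀ x : ℤ, |x| ≤ y → (x ∈ S ↔ x ∈ R)) (s : ℤ) (t : ℕ) :
    |ind s S t - ind s R t| ≤ ind s (Stay 1 y) t := by
  unfold ind
  by_cases hst : s * (t : ℤ) ∈ Stay 1 (y : ℝ)
  · rw [if_pos hst]
    split_ifs <;> simp
  · rw [if_neg hst]
    have hst' : ¬ ∀ k : ℕ, (y : ℝ) < |(((Td 1)^[k] (s * (t : ℤ)) : ℤ) : ℝ)| := hst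
    push Not at hst'
    obtain ⟨k, hk⟩ := hst'
    have hk2 : |(Td 1)^[k] (s * (t : ℤ))| ≤ (y : ℤ) := by exact_mod_cast hk
    have e : s * (t : ℤ) ∈ S ↔ s * (t : ℤ) ∈ R := by
      rw [inv_iter hS k, inv_iter hR k]
      exact h _ hk2
    by_cases hh : s * (t : ℤ) ∈ S
    · rw [if_pos hh, if_pos (e.mp hh)]
      simp
    · rw [if_neg hh, if_neg (fun h => hh (e.mpr h))]
      simp

open Classical in
/-- an invariant set with the given elements of small absolute value -/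
noncomputable def rep (y : ℕ) (A : Finset ℤ) : Set ℤ :=
  if h : ∃ S : Set ℤ, Inv 1 S ∧ ∀ x : ℤ, |x| ≤ y → (x ∈ S ↔ x ∈ A) then h.choose else ∅

lemma rep_inv (y : ℕ) (A : Finset ℤ) : Inv 1 (rep y A) := by
  unfold rep
  split_ifs with h
  · exact h.choose_spec.1
  · intro x
    simp

lemma rep_spec (y : ℕ) (A : Finset ℤ) {S : Set ℤ} (hS : Inv 1 S) (h : ∀ x : ℤ, |x| ≤ y → (x ∈ S ↔ x ∈ A)) (x : ℤ)
    (hx : |x| ≤ y) : x ∈ S ↔ x ∈ rep y A := by
  have hex : ∃ S : Set ℤ, Inv 1 S ∧ ∀ x : ℤ, |x| ≤ y → (x ∈ S ↔ x ∈ A) := ⟨S, hS, h⟩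
  unfold rep
  rw [dif_pos hex, hex.choose_spec.2 x hx]
  exact h x hx

/-- the sign with a given code -/
def sgn (b : Bool) : ℤ := if b then 1 else -1

lemma sgn_or (b : Bool) : sgn b = 1 ∨ sgn b = -1 := by
  cases b <;> simp [sgn]

lemma exists_code {s : ℤ} (hs : s = 1 ∨ s = -1) : ∃ b : Bool, sgn b = s := by
  rcases hs with rfl | rfl
  · exact ⟨true, rfl⟩
  · exact ⟨false, rfl⟩

/-- the functions -/
noncomputable def Fam (θ : ℝ) (k : Bool × ℕ × Finset ℤ × Fin 3) (t : ℕ) : ℝ :=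
  if k.2.2.2 = 0 then ind (sgn k.1) (rep k.2.1 k.2.2.1) t
  else if k.2.2.2 = 1 then ind (sgn k.1) (Stay 1 k.2.1) t
  else (least (sgn k.1 * t) : ℝ) ^ θ

lemma Fam_grow {θ κ : ℝ} (hθ : 0 < θ) (h : θ ≤ κ) : Pool.Agent.Y854.GM.Grow κ (Fam θ) := by
  intro k
  refine ⟨1, one_pos, fun m hm => ?_⟩
  have hm1 : (1 : ℝ) ≤ m := by exact_mod_cast hm
  have h1 : (1 : ℝ) ≤ (m : ℝ) ^ κ := Real.one_le_rpow hm1 (hθ.le.trans h)
  rw [one_mul]
  unfold Fam
  split_ifs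
  · rw [abs_of_nonneg (ind_nonneg _ _ _)]
    exact (ind_le _ _ _).trans h1
  · rw [abs_of_nonneg (ind_nonneg _ _ _)]
    exact (ind_le _ _ _).trans h1
  · rw [abs_of_nonneg (by positivity)]
    calc (least (sgn k.1 * m) : ℝ) ^ θ ≤ (m : ℝ) ^ θ := by
          apply Real.rpow_le_rpow (Nat.cast_nonneg _) _ hθ.le
          exact_mod_cast least_le_self (sgn_or k.1) m
      _ ≤ (m : ℝ) ^ κ := Real.rpow_le_rpow_of_exponent_le hm1 h

/-- **Main theorem of this file.** -/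
theorem main (c : ℝ) (hc : 1 < c) : ∃ θ : ℝ, 0 < θ ∧ ∃ E : Set ℝ, dimH E < 1 ∧ ∀ α : ℝ, 0 < α → α ∉ E →
    ∀ s : ℤ, (s = 1 ∨ s = -1) →
      (∀ ε : ℝ, 0 < ε → ∃ N0 : ℕ, ∀ N : ℕ, N0 ≤ N → ∀ S : Set ℤ, Inv 1 S → ∀ δ : ℝ, DS s S δ →
        |(∑ n ∈ Icc 1 N, ind s S ⌊α * (n : ℝ) ^ c⌋₊) / N - δ| ≤ ε) ∧
      (∃ C : ℝ, 0 < C ∧ ∀ N : ℕ, ∑ n ∈ Icc 1 N, (least (s * ⌊α * (n : ℝ) ^ c⌋₊) : ℝ) ^ θ ≤ C * N) := by
  classical
  obtain ⟨κ, hκ, hκ1, hmean⟩ := Pool.Agent.Y854.GM.mean c hc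
  set θ : ℝ := min κ 0.02 with hθ
  have hθ0 : 0 < θ := lt_min hκ (by norm_num)
  obtain ⟨E, hE, hlaw⟩ := hmean (Fam θ) (Fam_grow hθ0 (min_le_left _ _))
  refine ⟨θ, hθ0, E, lt_of_le_of_lt hE ?_, fun α hα hαE s hs => ?_⟩
  · have : (1 : ENNReal) = ENNReal.ofReal 1 := by simp
    rw [this]
    exact (ENNReal.ofReal_lt_ofReal_iff (by norm_num)).mpr (by linarith)
  obtain ⟨b, hb⟩ := exists_code hs
  obtain ⟨K, hK, hstay⟩ := stay_sum hs
  constructor
  · intro ε hε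
    -- the level
    obtain ⟨y, hy⟩ : ∃ y : ℕ, 1 ≤ y ∧ K / (y : ℝ) ^ (0.04 : ℝ) ≤ ε / 8 := by
      have h1 : Tendsto (fun y : ℕ => (y : ℝ) ^ (0.04 : ℝ)) atTop atTop :=
        (tendsto_rpow_atTop (by norm_num)).comp tendsto_natCast_atTop_atTop
      obtain ⟨y0, hy0⟩ := (h1.eventually (eventually_ge_atTop (8 * K / ε))).exists_forall_of_atTop
      refine ⟨max y0 1, le_max_right _ _, ?_⟩
      have h2 := hy0 (max y0 1) (le_max_left _ _)
      have hpos : (0 : ℝ) < ((max y0 1 : ℕ) : ℝ) ^ (0.04 : ℝ) := by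
        apply Real.rpow_pos_of_pos
        have : 1 ≤ max y0 1 := le_max_right _ _
        exact_mod_cast this
      rw [div_le_iff₀ hpos]
      rw [div_le_iff₀ hε] at h2
      linarith
    obtain ⟨hy1, hy2⟩ := hy
    have hyR : (1 : ℝ) ≤ y := by exact_mod_cast hy1
    set τ : ℝ := K / (y : ℝ) ^ (0.04 : ℝ) with hτ
    have hτ0 : 0 < τ := by positivity
    have hst : ∀ X : ℕ, ∑ t ∈ Ioc 0 X, ind s (Stay 1 y) t ≤ τ * (X + 1) := by
      intro X
      refine (hstay y hyR X).trans (le_of_eq ?_)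
      rw [hτ]
      ring
    -- the trajectories which stay above the level
    obtain ⟨Ns, hNs⟩ := hlaw α hα hαE (b, y, ∅, 1)
    have e1 : ∀ t, Fam θ (b, y, ∅, 1) t = ind s (Stay 1 y) t := by
      intro t
      unfold Fam
      simp [hb]
    simp only [e1] at hNs
    obtain ⟨N1, hN1⟩ := Pool.Agent.Y854.GM.seq_upper hα hc hκ (ind s (Stay 1 y)) (δ := τ) (C := τ)
      (fun X => by have := hst X; linarith) Ns hNs (ε / 8) (by positivity)
    -- the representatives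
    have hA : ∀ A : Finset ℤ, ∃ NA : ℕ, ∀ N : ℕ, NA ≤ N → ∀ δ : ℝ, DS s (rep y A) δ →
        |(∑ n ∈ Icc 1 N, ind s (rep y A) ⌊α * (n : ℝ) ^ c⌋₊) / N - δ| ≤ ε / 4 := by
      intro A
      obtain ⟨δA, hδA⟩ := DS_exists hs (rep_inv y A)
      obtain ⟨Na, hNa⟩ := hlaw α hα hαE (b, y, A, 0)
      have e2 : ∀ t, Fam θ (b, y, A, 0) t = ind s (rep y A) t := by
        intro t
        unfold Fam
        simp [hb]
      simp only [e2] at hNa
      have h1 := Pool.Agent.Y854.GM.seq_mean hα hc hκ (ind s (rep y A)) hδA Na hNa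
      rw [Metric.tendsto_atTop] at h1
      obtain ⟨NA, hNA⟩ := h1 (ε / 4) (by positivity)
      refine ⟨NA, fun N hN δ hδ => ?_⟩
      have h2 : δ = δA := tendsto_nhds_unique hδ hδA
      have h3 := hNA N hN
      rw [Real.dist_eq] at h3
      rw [h2]
      exact h3.le
    choose NA hNA using hA
    refine ⟨max (max N1 1) ((Finset.Icc (-(y : ℤ)) y).powerset.sup NA), fun N hN S hS δ hδ => ?_⟩
    have hNN1 : N1 ≤ N := ((le_max_left _ _).trans (le_max_left _ _)).trans hN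
    have hN1' : 1 ≤ N := ((le_max_right _ _).trans (le_max_left _ _)).trans hN
    have hNp : (0 : ℝ) < N := by exact_mod_cast hN1'
    set A : Finset ℤ := (Finset.Icc (-(y : ℤ)) y).filter (fun x => x ∈ S) with hAdef
    have hAmem : A ∈ (Finset.Icc (-(y : ℤ)) y).powerset := by
      rw [Finset.mem_powerset]
      exact Finset.filter_subset _ _
    have hNNA : NA A ≤ N := ((Finset.le_sup (f := NA) hAmem).trans (le_max_right _ _)).trans hN
    have hSA : ∀ x : ℤ, |x| ≤ y → (x ∈ S ↔ x ∈ A) := by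
      intro x hx
      rw [hAdef, mem_filter, Finset.mem_Icc, ← abs_le]
      exact ⟨fun h => ⟨hx, h⟩, fun h => h.2⟩
    have hag := agree hS (rep_inv y A) y (rep_spec y A hS hSA) s
    obtain ⟨δA, hδA⟩ := DS_exists hs (rep_inv y A)
    have h1 := hNA A N hNNA δA hδA
    -- the densities
    have h2 : |δ - δA| ≤ ε / 4 := by
      have ht : Tendsto (fun X : ℕ => |(∑ t ∈ Ioc 0 X, ind s S t) / X - (∑ t ∈ Ioc 0 X, ind s (rep y A) t) / X|)
          atTop (𝓝 |δ - δA|) := (hδ.sub hδA).abs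
      apply le_of_tendsto ht
      filter_upwards [eventually_ge_atTop 1] with X hX
      have hXp : (0 : ℝ) < X := by exact_mod_cast hX
      have hX1 : (1 : ℝ) ≤ X := by exact_mod_cast hX
      rw [← sub_div, ← Finset.sum_sub_distrib, abs_div, abs_of_pos hXp, div_le_iff₀ hXp]
      refine (Finset.abs_sum_le_sum_abs _ _).trans ((Finset.sum_le_sum fun t _ => hag t).trans ?_)
      refine (hst X).trans ?_
      nlinarith
    -- the frequencies
    have h3 : |(∑ n ∈ Icc 1 N, ind s S ⌊α * (n : ℝ) ^ c⌋₊) / N -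
        (∑ n ∈ Icc 1 N, ind s (rep y A) ⌊α * (n : ℝ) ^ c⌋₊) / N| ≤ ε / 4 := by
      rw [← sub_div, ← Finset.sum_sub_distrib, abs_div, abs_of_pos hNp, div_le_iff₀ hNp]
      refine (Finset.abs_sum_le_sum_abs _ _).trans ((Finset.sum_le_sum fun n _ => hag _).trans ?_)
      refine (hN1 N hNN1).trans ?_
      nlinarith
    rw [abs_le] at h1 h2 h3 ⊢
    constructor <;> linarith [h1.1, h1.2, h2.1, h2.2, h3.1, h3.2]
  · obtain ⟨K', hK', hmom⟩ := least_moment hs hθ0 (min_le_right _ _)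
    obtain ⟨Nm, hNm⟩ := hlaw α hα hαE (b, 0, ∅, 2)
    have e1 : ∀ t : ℕ, Fam θ (b, 0, ∅, 2) t = (least (s * t) : ℝ) ^ θ := by
      intro t
      unfold Fam
      simp [hb]
    simp only [e1] at hNm
    obtain ⟨N1, hN1⟩ := Pool.Agent.Y854.GM.seq_upper hα hc hκ (fun t : ℕ => (least (s * t) : ℝ) ^ θ) (δ := K') (C := K')
      (fun X => by have := hmom X; linarith) Nm hNm 1 one_pos
    set D : ℝ := ∑ n ∈ Icc 1 N1, (least (s * ⌊α * (n : ℝ) ^ c⌋₊) : ℝ) ^ θ with hD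
    have hD0 : 0 ≤ D := Finset.sum_nonneg fun _ _ => by positivity
    refine ⟨K' + 1 + D, by positivity, fun N => ?_⟩
    rcases le_total N1 N with h | h
    · have h1 := hN1 N h
      have h2 : 0 ≤ D * N := by positivity
      linarith
    · rcases Nat.eq_zero_or_pos N with rfl | hN
      · simp
      · have h1 : ∑ n ∈ Icc 1 N, (least (s * ⌊α * (n : ℝ) ^ c⌋₊) : ℝ) ^ θ ≤ D := by
          apply Finset.sum_le_sum_of_subset_of_nonneg
          · exact Finset.Icc_subset_Icc_right h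
          · intro _ _ _
            positivity
        have h2 : (1 : ℝ) ≤ N := by exact_mod_cast hN
        have h3 : D ≤ D * N := le_mul_of_one_le_right hD0 h2
        have h4 : 0 ≤ (K' + 1) * (N : ℝ) := by positivity
        linarith

end Pool.Agent.Y854.CO
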